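import Mathlib
import Pool.Agent.Q203.TR.B6

/-!
# The growth of the norm of the coefficient truncation in `L_p`, `0 < p < 2`

`S n P` replaces the coefficients `a_j` of `P`, `j ≤ n`, with `|a_j| ≥ 1` by `a_j / |a_j|`.
`N n p` is the supremum of `‖S n P‖_p / ‖P‖_p` over the complex polynomials `P ≠ 0` of degree at
most `n`.

We show `c n ^ (min (1/2) (1/p - 1/2) - θ) ≤ N n p ≤ (n + 1) ^ (1/p - 1/2)` for all `0 < p < 2` and
all `θ > 0`. Hence for `1 ≤ p < 2` the exact exponent of the growth is `1/p - 1/2`: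
`log (N n p) / log n → 1/p - 1/2`; and there is no `p` in `(0, 2)` for which `N n p` is bounded.

Proof of the lower bound: `P = ∑_{a < n} (1 + i ε Y_a) z ^ a` with
`Y_a = ∑_l 2 cos (2 π (J + a) x_l)`, a sum of `D` cosines with random frequencies, `ε` of the order
`D ^ (-1/2)` and `n` of the order `D ^ k` for a large even `k`. The polynomial `P` is the sum of
`2 D + 1` translated Dirichlet kernels, its norm in `L_1` is at most
`C D ^ (1/2) n ^ δ = C n ^ (1/(2k) + δ)`. Its coefficients have modulus at least one, and those of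
`S P` are `exp (i arctan (ε Y_a))`. The Fourier coefficients of this function of the order `k` are of
the order `ε ^ k`, because the `k`-th derivative at zero of `exp (i arctan x)` does not vanish; this
gives `D ^ k` peaks of the height `ε ^ k n`, which is the order of the root of `n`; they cover a
positive proportion of the circle. Upper bound: `‖S P‖_p ≤ ‖S P‖_2 ≤ ‖P‖_2 ≤
(n + 1) ^ (1/p - 1/2) ‖P‖_p` for the normalised measure.
-/

set_option autoImplicit false

namespace Pool.Agent.Results.MP_7d00fe_an.ExponentOfGrowth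

open MeasureTheory Filter Topology

/-- the norm of `L_p (∂D)`, arc length measure -/
noncomputable def Lp (p : ℝ) (P : Polynomial ℂ) : ℝ :=
  (∫ t in (0 : ℝ)..(2 * Real.pi), ‖P.eval (Complex.exp (t * Complex.I))‖ ^ p) ^ (1 / p)

/-- truncation of one coefficient -/
noncomputable def trunc (a : ℂ) : ℂ := if ‖a‖ < 1 then a else a / ‖a‖

/-- the truncation operator -/
noncomputable def S (n : ℕ) (P : Polynomial ℂ) : Polynomial ℂ :=
  ∑ j ∈ Finset.range (n + 1), Polynomial.monomial j (trunc (P.coeff j))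

/-- the supremum of `‖S_n P‖_p / ‖P‖_p` over all complex polynomials `P ≠ 0` of degree `≤ n` -/
noncomputable def N (n : ℕ) (p : ℝ) : ENNReal :=
  ⨆ (P : Polynomial ℂ) (_ : P ≠ 0) (_ : P.natDegree ≤ n), ENNReal.ofReal (Lp p (S n P) / Lp p P)

theorem S_eq {n : ℕ} {P : Polynomial ℂ} (h : P.natDegree ≤ n) : S n P =
    Pool.Agent.Q203.TR.S P := by
  ext j
  rw [Pool.Agent.Q203.TR.S_coeff]
  unfold S
  rw [Polynomial.finsetSum_coeff]
  simp_rw [Polynomial.coeff_monomial]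
  rw [Finset.sum_ite_eq' (Finset.range _)]
  split_ifs with hj
  · rfl
  · rw [Finset.mem_range, not_lt] at hj
    rw [Polynomial.coeff_eq_zero_of_natDegree_lt (by omega), Pool.Agent.Q203.TR.trunc_zero]

theorem le_N {n : ℕ} {p : ℝ} {P : Polynomial ℂ} (hP : P ≠ 0) (hd : P.natDegree ≤ n) :
    ENNReal.ofReal (Lp p (S n P) / Lp p P) ≤ N n p :=
  le_iSup_of_le P (le_iSup_of_le hP (le_iSup_of_le hd le_rfl))

theorem upper {p : ℝ} (hp : 0 < p) (hp2 : p < 2) (n : ℕ) :
    N n p ≤ ENNReal.ofReal (((n : ℝ) + 1) ^ (1 / p - 1 / 2)) := by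
  refine iSup_le fun P => iSup_le fun hP => iSup_le fun hd => ?_
  apply ENNReal.ofReal_le_ofReal
  have hpos : 0 < Lp p P := Pool.Agent.Q203.TR.Lp_pos hp hp2 hP
  rw [div_le_iff₀ hpos, S_eq hd]
  exact Pool.Agent.Q203.TR.upper hd hp hp2

theorem lower {p : ℝ} (hp : 0 < p) (hp2 : p < 2) {θ : ℝ} (hθ : 0 < θ) :
    ∃ c : ℝ, 0 < c ∧ ∀ n : ℕ, 1 ≤ n →
      ENNReal.ofReal (c * (n : ℝ) ^ (min (1 / 2) (1 / p - 1 / 2) - θ)) ≤ N n p := by
  obtain ⟨c, hc, h⟩ := Pool.Agent.Q203.TR.lowerk hp hp2 hθ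
  refine ⟨c, hc, fun n hn => ?_⟩
  obtain ⟨P, hP0, hPd, hP⟩ := h n hn
  refine le_trans ?_ (le_N hP0 hPd)
  have hpos : 0 < Lp p P := Pool.Agent.Q203.TR.Lp_pos hp hp2 hP0
  apply ENNReal.ofReal_le_ofReal
  rw [le_div_iff₀ hpos, S_eq hPd, ← Pool.Agent.Q203.TR.be_half]
  exact hP

theorem limit {p : ℝ} (hp : 1 ≤ p) (hp2 : p < 2) :
    Tendsto (fun n : ℕ => Real.log (N n p).toReal / Real.log n) atTop (𝓝 (1 / p - 1 / 2)) := by
  have hp0 : 0 < p := by linarith
  obtain ⟨α, hα⟩ : ∃ α : ℝ, α = 1 / p - 1 / 2 := ⟨_, rfl⟩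
  have hα0 : 0 < α := by
    rw [hα, sub_pos, div_lt_div_iff₀ (by norm_num) hp0]
    linarith
  have hmin : min (1 / 2) (1 / p - 1 / 2) = α := by
    rw [← hα]
    apply min_eq_right
    rw [hα, sub_le_iff_le_add]
    rw [div_le_iff₀ hp0]
    linarith
  have hfin : ∀ n : ℕ, N n p ≠ ⊤ := fun n => ne_top_of_le_ne_top ENNReal.ofReal_ne_top
    (upper hp0 hp2 n)
  have hlog : Tendsto (fun n : ℕ => Real.log n) atTop atTop :=
    Real.tendsto_log_atTop.comp tendsto_natCast_atTop_atTop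
  have hup : ∀ n : ℕ, (N n p).toReal ≤ ((n : ℝ) + 1) ^ α := by
    intro n
    rw [hα]
    exact ENNReal.toReal_le_of_le_ofReal (by positivity) (upper hp0 hp2 n)
  rw [← hα, tendsto_order]
  constructor
  · intro a ha
    obtain ⟨c, hc, h⟩ := lower hp0 hp2 (θ := (α - a) / 2) (by linarith)
    rw [hmin] at h
    filter_upwards [eventually_ge_atTop 2, hlog.eventually_gt_atTop (-(Real.log c) /
      ((α - a) / 2))] with n hn2 hn
    have hnR : (2 : ℝ) ≤ n := by exact_mod_cast hn2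
    have hn0 : (0 : ℝ) < n := by linarith
    have hln : 0 < Real.log n := Real.log_pos (by linarith)
    have h1 : c * (n : ℝ) ^ (α - (α - a) / 2) ≤ (N n p).toReal :=
      (ENNReal.ofReal_le_iff_le_toReal (hfin n)).1 (h n (by omega))
    have h2 : 0 < c * (n : ℝ) ^ (α - (α - a) / 2) := by positivity
    have h3 := Real.log_le_log h2 h1
    rw [Real.log_mul hc.ne' (by positivity), Real.log_rpow hn0] at h3
    rw [lt_div_iff₀ hln]
    rw [div_lt_iff₀ (by linarith)] at hn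
    nlinarith
  · intro b hb
    filter_upwards [eventually_ge_atTop 2, hlog.eventually_gt_atTop (α * Real.log 2 /
      (b - α))] with n hn2 hn
    have hnR : (2 : ℝ) ≤ n := by exact_mod_cast hn2
    have hn0 : (0 : ℝ) < n := by linarith
    have hln : 0 < Real.log n := Real.log_pos (by linarith)
    have hl2 : 0 < Real.log 2 := Real.log_pos (by norm_num)
    rw [div_lt_iff₀ hln]
    rcases (ENNReal.toReal_nonneg (a := N n p)).eq_or_lt with h0 | h0
    · rw [← h0, Real.log_zero]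
      exact mul_pos (by linarith) hln
    · have h1 := Real.log_le_log h0 (hup n)
      rw [Real.log_rpow (by positivity)] at h1
      have h2 : Real.log ((n : ℝ) + 1) ≤ Real.log 2 + Real.log n := by
        rw [← Real.log_mul (by norm_num) hn0.ne']
        exact Real.log_le_log (by positivity) (by linarith)
      have h3 : α * Real.log ((n : ℝ) + 1) ≤ α * (Real.log 2 + Real.log n) :=
        mul_le_mul_of_nonneg_left h2 hα0.le
      rw [div_lt_iff₀ (by linarith)] at hn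
      linarith

/-- **Main theorem.**
(1) For all `0 < p < 2`: `N n p ≤ (n + 1) ^ (1/p - 1/2)`, and for every `θ > 0` there is `c > 0`
with `N n p ≥ c n ^ (min (1/2) (1/p - 1/2) - θ)` for all `n ≥ 1`.
(2) For `1 ≤ p < 2`, `log (N n p) / log n → 1/p - 1/2`.
(3) Negative answer to Q2: there is no `p` in `(0, 2)` with `sup_n N n p < ∞`. -/
theorem result :
    (∀ p : ℝ, 0 < p → p < 2 →
      (∀ n : ℕ, N n p ≤ ENNReal.ofReal (((n : ℝ) + 1) ^ (1 / p - 1 / 2))) ∧
      ∀ θ : ℝ, 0 < θ → ∃ c : ℝ, 0 < c ∧ ∀ n : ℕ, 1 ≤ n →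
        ENNReal.ofReal (c * (n : ℝ) ^ (min (1 / 2) (1 / p - 1 / 2) - θ)) ≤ N n p) ∧
    (∀ p : ℝ, 1 ≤ p → p < 2 →
      Tendsto (fun n : ℕ => Real.log (N n p).toReal / Real.log n) atTop (𝓝 (1 / p - 1 / 2))) ∧
    ¬ ∃ p : ℝ, 0 < p ∧ p < 2 ∧ (⨆ n : ℕ, N n p) < ⊤ := by
  refine ⟨fun p hp hp2 => ⟨upper hp hp2, fun θ hθ => lower hp hp2 hθ⟩,
    fun p hp hp2 => limit hp hp2, ?_⟩
  rintro ⟨p, hp, hp2, h⟩
  obtain ⟨n, P, hP0, hPd, hP⟩ := Pool.Agent.Q203.TR.unbounded hp hp2
    ((⨆ n : ℕ, N n p).toReal)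
  have hpos : 0 < Lp p P := Pool.Agent.Q203.TR.Lp_pos hp hp2 hP0
  have h1 : (⨆ n : ℕ, N n p).toReal < Lp p (Pool.Agent.Q203.TR.S P) / Lp p P := by
    rw [lt_div_iff₀ hpos]
    exact hP
  have h2 := (le_N hP0 hPd (p := p)).trans (le_iSup (fun n => N n p) n)
  rw [S_eq hPd] at h2
  have h3 : Lp p (Pool.Agent.Q203.TR.S P) / Lp p P ≤ (⨆ n : ℕ, N n p).toReal :=
    (ENNReal.ofReal_le_iff_le_toReal h.ne).1 h2
  linarith

end Pool.Agent.Results.MP_7d00fe_an.ExponentOfGrowth
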